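import Pool.Agent.H547R2.Mag3

/-!
# `NEXP` and few NOT gates
-/

set_option autoImplicit false

namespace Pool.Agent.H547U5

open Pool.Agent Pool.Agent.NPC Pool.Agent.H547R2.Mag

/-- The class `NEXP`: languages with certificates of length at most `2 ^ p (|x|)`, `p` a
polynomial, verifiable in time polynomial in the length of the input and of the certificate. -/
def InNEXP (L : Set (List Bool)) : Prop :=
  ∃ (V : List Bool → List Bool) (p : Polynomial ℕ), PolyTime V ∧
    ∀ x, x ∈ L ↔ ∃ w : List Bool, w.length ≤ 2 ^ p.eval x.length ∧ V (pairBits x w) = [true]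

theorem inNEXP_of_poly {L : Set (List Bool)} (g : List Bool × List Bool → Bool) (hg : Poly g)
    (p : Polynomial ℕ)
    (h : ∀ x, x ∈ L ↔ ∃ w : List Bool, w.length ≤ 2 ^ p.eval x.length ∧ g (x, w) = true) :
    InNEXP L := by
  refine ⟨fun y => [g (H611R2.unpair y)], p,
    H611R2.polyTime_of_poly (hg.comp H611R2.unpair_poly), fun x => ?_⟩
  rw [h x]
  simp only [H611R2.unpair_pairBits, List.cons.injEq, and_true]

theorem len_check (m k : ℕ) : (m - 1).bits.length ≤ k ↔ m ≤ 2 ^ k := by
  rw [Nat.size_eq_bits_len, Nat.size_le]
  have := Nat.one_le_two_pow (n := k)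
  omega

theorem inNEXP_dual {L : Set (List Bool)} (hL : InNEXP L) : InNEXP (dual L) := by
  obtain ⟨V, p, hV, hL'⟩ := hL
  have hV' : Poly V := Med.poly_of_polyTime hV
  have hu : Poly (fun a : List Bool × List Bool => a.1) := Poly.fst Poly.id
  have hz : Poly (fun a : List Bool × List Bool => (H611R2.unpair a.2).1) :=
    Poly.fst (H611R2.unpair_poly.comp (Poly.snd Poly.id))
  have hy : Poly (fun a : List Bool × List Bool => (H611R2.unpair a.2).2) :=
    Poly.snd (H611R2.unpair_poly.comp (Poly.snd Poly.id))
  refine inNEXP_of_poly (fun a =>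
    decide (a.1.length = 2 * (H611R2.unpair a.2).1.length) &&
    ((List.range (H611R2.unpair a.2).1.length).all (fun i =>
      a.1.getD (2 * i + (if (H611R2.unpair a.2).1.getD i false = true then 1 else 0)) false) &&
    (decide (((H611R2.unpair a.2).2.length - 1).bits.length ≤
      p.eval (H611R2.unpair a.2).1.length) &&
    decide (V (pairBits (H611R2.unpair a.2).1 (H611R2.unpair a.2).2) = [true])))) ?_
    (Polynomial.X + p + 1) ?_
  · refine Poly.and (Poly.decide_eq (Poly.length hu) (Poly.mul (NPC.Poly.const 2) (Poly.length hz)))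
      (Poly.and ?_ (Poly.and (Poly.decide_le
        (Poly.length (Poly.natBits (Poly.sub (Poly.length hy) (NPC.Poly.const 1))))
        (UPoly.eval (UPoly.length hz) p).toPoly)
        (Poly.decide_eq (hV'.comp (Med.poly_pairBits hz hy)) (NPC.Poly.const ([true] : List Bool)))))
    refine Poly.all (UPoly.length hz).range ?_
    have hi : Poly (fun r : (List Bool × List Bool) × ℕ => r.2) := Poly.snd Poly.id
    have hz' : Poly (fun r : (List Bool × List Bool) × ℕ => (H611R2.unpair r.1.2).1) :=
      hz.comp (Poly.fst Poly.id)
    exact Poly.getD (hu.comp (Poly.fst Poly.id)) (Poly.add (Poly.mul (NPC.Poly.const 2) hi)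
      (Poly.ite (Poly.decide_eq (Poly.getD hz' hi (NPC.Poly.const false)) (NPC.Poly.const true))
        (NPC.Poly.const 1) (NPC.Poly.const 0))) (NPC.Poly.const false)
  · intro u
    constructor
    · rintro ⟨z, hz, hl, h⟩
      obtain ⟨y, hy1, hy2⟩ := (hL' z).1 hz
      refine ⟨pairBits z y, ?_, ?_⟩
      · have h1 : (pairBits z y).length = 2 * z.length + 1 + y.length := by
          unfold pairBits
          rw [List.length_append, List.length_flatMap, List.length_cons]
          simp
          ring
        have h2 : p.eval z.length ≤ p.eval u.length := eval_mono p (by omega)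
        have h3 : 2 ^ p.eval z.length ≤ 2 ^ p.eval u.length := Nat.pow_le_pow_right (by norm_num) h2
        have h4 : u.length < 2 ^ u.length := Nat.lt_two_pow_self
        have h5 : 1 ≤ 2 ^ p.eval u.length := Nat.one_le_two_pow
        simp only [Polynomial.eval_add, Polynomial.eval_X, Polynomial.eval_one]
        rw [pow_succ, pow_add]
        generalize 2 ^ p.eval u.length = B at *
        generalize 2 ^ u.length = A at *
        have h6 : A ≤ A * B := Nat.le_mul_of_pos_right A h5
        have h7 : B ≤ A * B := Nat.le_mul_of_pos_left B (by omega)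
        omega
      · simp only [H611R2.unpair_pairBits, Bool.and_eq_true, decide_eq_true_eq, List.all_eq_true,
          List.mem_range]
        refine ⟨hl, fun i hi => ?_, (len_check _ _).2 hy1, hy2⟩
        have := h i hi
        cases hb : z.getD i false
        · rw [hb] at this
          rw [if_neg (by simp)]
          exact this
        · rw [hb] at this
          rw [if_pos rfl]
          exact this
    · rintro ⟨w, _, h⟩
      simp only [Bool.and_eq_true, decide_eq_true_eq, List.all_eq_true, List.mem_range] at h
      obtain ⟨h1, h2, h3, h4⟩ := h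
      refine ⟨_, (hL' _).2 ⟨_, (len_check _ _).1 h3, h4⟩, h1, fun i hi => ?_⟩
      have := h2 i hi
      cases hb : (H611R2.unpair w).1.getD i false
      · rw [hb, if_neg (by simp)] at this
        exact this
      · rw [hb, if_pos rfl] at this
        exact this

theorem nexp_iff (c : ℕ) : (∀ L : Set (List Bool), InNEXP L → PPoly L) ↔
    ∀ L : Set (List Bool), InNEXP L → MonoLang L →
      PPolyNot (fun n => Nat.clog 2 (n + 1) - c) L := by
  constructor
  · intro h L hL hm
    exact ppolyNot_of_ppoly c hm (h L hL)
  · intro h L hL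
    obtain ⟨k, hk, h1⟩ := h _ (inNEXP_dual hL) (monoLang_dual L)
    exact ppoly_of_dual ⟨k, hk, fun n => let ⟨C, hC, hs, _⟩ := h1 n; ⟨C, hC, hs⟩⟩

end Pool.Agent.H547U5
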